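import Pool.Agent.Q293.ZT.Struct

/-!
# Grown trees, and the tripartite case
-/

set_option autoImplicit false

open Finset

namespace Pool.Agent.Q293.ZT

/-- `GT adj col W n t`: there is a tree with vertex set `W` and `n` edges, all of them between
`adj`-related vertices, with colour sum `t`. -/
inductive GT {G V : Type} [AddCommGroup G] [DecidableEq V] (adj : V → V → Prop) (col : V → V → G) :
    Finset V → ℕ → G → Prop
  | single (v : V) : GT adj col {v} 0 0
  | leaf {W : Finset V} {n : ℕ} {t : G} {u v : V} : GT adj col W n t → u ∈ W → v ∉ W →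
      adj u v → GT adj col (insert v W) (n + 1) (t + col u v)

variable {G : Type} [AddCommGroup G] {V : Type} [DecidableEq V]

theorem GT.cast {adj : V → V → Prop} {col : V → V → G} {W : Finset V} {n n' : ℕ} {t t' : G}
    (h : GT adj col W n t) (hn : n = n') (ht : t = t') : GT adj col W n' t' := by
  subst hn ht
  exact h

theorem GT.add_star {adj : V → V → Prop} {col : V → V → G} {W : Finset V} {n : ℕ} {t : G}
    (h : GT adj col W n t) {u : V} (hu : u ∈ W)
    (J : Finset V) (hJW : Disjoint J W) (hJ : ∀ j ∈ J, adj u j) :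
    GT adj col (W ∪ J) (n + J.card) (t + ∑ j ∈ J, col u j) := by
  induction J using Finset.induction_on with
  | empty => simpa using h
  | insert a J ha ih =>
    have h1 := ih (Finset.disjoint_of_subset_left (Finset.subset_insert _ _) hJW)
      (fun j hj => hJ j (Finset.mem_insert_of_mem hj))
    have haW : a ∉ W := Finset.disjoint_left.mp hJW (Finset.mem_insert_self _ _)
    have h2 := GT.leaf h1 (Finset.mem_union_left _ hu) (v := a) (by
      rw [Finset.mem_union]
      rintro (h | h)
      · exact haW h
      · exact ha h) (hJ a (Finset.mem_insert_self _ _))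
    rw [Finset.union_insert, Finset.card_insert_of_notMem ha, Finset.sum_insert ha]
    refine h2.cast (by ring) (by abel)

theorem GT.of_tr {side : V → Bool} {adj : V → V → Prop} {col : V → V → G} {W : Finset V} {n : ℕ}
    {t : G} (h : Pool.Agent.S10353.Tr side col W n t) (hadj : ∀ u v, side u ≠ side v → adj u v) :
    GT adj col W n t := by
  induction h with
  | single v => exact GT.single v
  | leaf h hu hv huv ih => exact GT.leaf ih hu hv (hadj _ _ huv)

/-- a grown tree is a tree -/
theorem GT.to_subgraph {V' : Type} {adj : V → V → Prop} {col : V → V → G} (i : V → V')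
    (hi : Function.Injective i) (c : Sym2 V' → G) (hcol : ∀ u v, col u v = c s(i u, i v))
    (W : Finset V) (n : ℕ) (t : G) (h : GT adj col W n t) :
    ∃ H : (⊤ : SimpleGraph V').Subgraph, H.verts = i '' (W : Set V) ∧
      H.Connected ∧ W.card = n + 1 ∧ H.edgeSet.Finite ∧ H.edgeSet.ncard = n ∧
      (∀ e ∈ H.edgeSet, ∃ u v, adj u v ∧ e = s(i u, i v)) ∧
      (∑ᶠ e ∈ H.edgeSet, c e) = t := by
  classical
  induction h with
  | single v =>
    refine ⟨(⊤ : SimpleGraph V').singletonSubgraph (i v), ?_,
      SimpleGraph.Subgraph.singletonSubgraph_connected, by simp, ?_, ?_, ?_, ?_⟩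
    · simp
    · simp
    · simp
    · simp
    · simp
  | @leaf W n t u v h hu hv huv ih =>
    obtain ⟨H, hV, hconn, hcard, hfin, hn, hadj, ht⟩ := ih
    have hne : u ≠ v := fun h' => hv (h' ▸ hu)
    have hadj' : (⊤ : SimpleGraph V').Adj (i u) (i v) := by
      rw [SimpleGraph.top_adj]
      exact fun h' => hne (hi h')
    have hvV : i v ∉ H.verts := by
      rw [hV]
      rintro ⟨w, hw, hwv⟩
      have := hi hwv
      subst this
      exact hv (by simpa using hw)
    have hnot : s(i u, i v) ∉ H.edgeSet := by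
      intro hmem
      rw [SimpleGraph.Subgraph.mem_edgeSet] at hmem
      exact hvV (H.edge_vert hmem.symm)
    have huV : i u ∈ H.verts := by
      rw [hV]
      exact ⟨u, by simpa using hu, rfl⟩
    have hedge : (H ⊔ (⊤ : SimpleGraph V').subgraphOfAdj hadj').edgeSet
        = insert s(i u, i v) H.edgeSet := by
      rw [SimpleGraph.Subgraph.edgeSet_sup, SimpleGraph.edgeSet_subgraphOfAdj, Set.union_singleton]
    refine ⟨H ⊔ (⊤ : SimpleGraph V').subgraphOfAdj hadj', ?_, ?_, ?_, ?_, ?_, ?_, ?_⟩
    · rw [SimpleGraph.Subgraph.verts_sup, SimpleGraph.subgraphOfAdj_verts, hV]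
      ext z
      simp only [Set.mem_union, Set.mem_image, Set.mem_insert_iff, Set.mem_singleton_iff,
        coe_insert, mem_coe]
      constructor
      · rintro (⟨w, hw, rfl⟩ | rfl | rfl)
        · exact ⟨w, Or.inr hw, rfl⟩
        · exact ⟨u, Or.inr hu, rfl⟩
        · exact ⟨v, Or.inl rfl, rfl⟩
      · rintro ⟨w, rfl | hw, rfl⟩
        · exact Or.inr (Or.inr rfl)
        · exact Or.inl ⟨w, hw, rfl⟩
    · refine SimpleGraph.Subgraph.connected_sup hconn.preconnected
        (SimpleGraph.Subgraph.subgraphOfAdj_connected hadj').preconnected ⟨i u, huV, ?_⟩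
      simp
    · rw [Finset.card_insert_of_notMem hv, hcard]
    · rw [hedge]
      exact hfin.insert _
    · rw [hedge, Set.ncard_insert_of_notMem hnot hfin, hn]
    · intro e he
      rw [hedge, Set.mem_insert_iff] at he
      rcases he with rfl | he
      · exact ⟨u, v, huv, rfl⟩
      · exact hadj e he
    · rw [hedge, finsum_mem_insert _ hnot hfin, ht, hcol, add_comm]

/-- growing inside a component -/
theorem grow {V : Type} [Fintype V] [DecidableEq V] (Γ : SimpleGraph V) (v : V) (n : ℕ)
    (S : Finset V) (hS : ∀ u ∈ S, Γ.Reachable v u) (hn : n + 1 ≤ S.card) :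
    ∃ W, GT Γ.Adj (fun _ _ => (0 : G)) W n 0 ∧ v ∈ W ∧ W.card = n + 1 := by
  induction n with
  | zero => exact ⟨{v}, GT.single v, by simp, by simp⟩
  | succ n ih =>
    obtain ⟨W, hW, hv, hc⟩ := ih (by omega)
    have h1 : ∃ u ∈ S, u ∉ W := by
      by_contra hcon
      push Not at hcon
      have := Finset.card_le_card hcon
      omega
    obtain ⟨u, hu, huW⟩ := h1
    obtain ⟨p⟩ := hS u hu
    obtain ⟨d, -, hd1, hd2⟩ := p.exists_boundary_dart (W : Set V) (by simpa using hv)
      (by simpa using huW)
    have hd1' : d.fst ∈ W := by simpa using hd1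
    have hd2' : d.snd ∉ W := by simpa using hd2
    refine ⟨insert d.snd W, (GT.leaf hW hd1' hd2' d.adj).cast rfl (by simp), by simp [hv], ?_⟩
    rw [Finset.card_insert_of_notMem hd2', hc]

section tri

variable [Fintype G] [DecidableEq G] [Fintype V]

/-- In a complete tripartite graph on `2 m` vertices every colouring by a group of order `m` has a
zero-sum tree with `m` edges. -/
theorem tri (part : V → Fin 3) (col : V → V → G) (m : ℕ)
    (hV : Fintype.card V = 2 * m)
    (hG : Nat.card G = m) (hcol : ∀ x y, col x y = col y x) (hsurj : ∀ i, ∃ v, part v = i) :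
    ∃ W, GT (fun u v => part u ≠ part v) col W m 0 := by
  classical
  by_contra hcon
  push Not at hcon
  set sd : Fin 3 → V → Bool := fun i v => decide (part v = i) with hsd
  have hadj : ∀ i u v, sd i u ≠ sd i v → part u ≠ part v := by
    intro i u v h h'
    exact h (by simp only [hsd, h'])
  have hno : ∀ i W, ¬ Pool.Agent.S10353.Tr (sd i) col W m 0 := fun i W h =>
    hcon W (GT.of_tr h (hadj i))
  have hopp : ∀ i u v, v ∈ opp (sd i) u ↔ ¬ (part v = i ↔ part u = i) := by
    intro i u v
    rw [mem_opp]
    simp only [hsd, ne_eq, decide_eq_decide]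
  obtain ⟨v0, hv0⟩ := hsurj 0
  obtain ⟨v1, hv1⟩ := hsurj 1
  obtain ⟨v2, hv2⟩ := hsurj 2
  obtain ⟨a, b, hab, h1⟩ := no_tree (sd 1) col m hV hG hcol (hno 1)
    ⟨v0, v1, by rw [hopp, hv0, hv1]; decide⟩
  obtain ⟨a0, b0, hab0, h0⟩ := no_tree (sd 0) col m hV hG hcol (hno 0)
    ⟨v0, v1, by rw [hopp, hv0, hv1]; decide⟩
  obtain ⟨a2, b2, hab2, h2⟩ := no_tree (sd 2) col m hV hG hcol (hno 2)
    ⟨v0, v2, by rw [hopp, hv0, hv2]; decide⟩
  -- the colours of the two other structures
  have same : ∀ (i : Fin 3) (c d : G) (w : V), i ≠ 1 → part w = i → c ≠ d →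
      (∀ u, (∀ v ∈ opp (sd i) u, col u v = c ∨ col u v = d) ∧
        2 * dg (sd i) col c u = (opp (sd i) u).card ∧
        2 * dg (sd i) col d u = (opp (sd i) u).card) →
      ∀ u, (∀ v ∈ opp (sd i) u, col u v = a ∨ col u v = b) ∧
        2 * dg (sd i) col a u = (opp (sd i) u).card ∧
        2 * dg (sd i) col b u = (opp (sd i) u).card := by
    intro i c d w hi hw hcd hT
    have hpos : 0 < (opp (sd i) v1).card :=
      Finset.card_pos.2 ⟨w, by rw [hopp, hw, hv1]; simp [Ne.symm hi]⟩
    have hsub : ∀ j, j ∈ opp (sd i) v1 → j ∈ opp (sd 1) v1 := by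
      intro j hj
      rw [hopp, hv1] at hj ⊢
      intro h
      rw [h.2 rfl] at hj
      exact hj Iff.rfl
    have hc : c = a ∨ c = b := by
      obtain ⟨j, hj⟩ := Finset.card_pos.1 (show 0 < dg (sd i) col c v1 by
        have := (hT v1).2.1; omega)
      rw [mem_filter] at hj
      have := (h1 v1).1 j (hsub j hj.1)
      rwa [hj.2] at this
    have hd : d = a ∨ d = b := by
      obtain ⟨j, hj⟩ := Finset.card_pos.1 (show 0 < dg (sd i) col d v1 by
        have := (hT v1).2.2; omega)
      rw [mem_filter] at hj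
      have := (h1 v1).1 j (hsub j hj.1)
      rwa [hj.2] at this
    rcases hc with rfl | rfl
    · rcases hd with rfl | rfl
      · exact absurd rfl hcd
      · exact hT
    · rcases hd with rfl | rfl
      · intro u
        exact ⟨fun v hv => ((hT u).1 v hv).symm, (hT u).2.2, (hT u).2.1⟩
      · exact absurd rfl hcd
  have h0' := same 0 a0 b0 v0 (by decide) hv0 hab0 h0
  have h2' := same 2 a2 b2 v2 (by decide) hv2 hab2 h2
  -- neighbours of `v0`
  obtain ⟨y, hy⟩ : ∃ y, y ∈ (opp (sd 1) v0).filter fun j => col v0 j = a := by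
    apply Finset.card_pos.1
    have e1 := (h1 v0).2.1
    have e2 : 0 < (opp (sd 1) v0).card := Finset.card_pos.2 ⟨v1, by rw [hopp, hv0, hv1]; decide⟩
    unfold dg at e1
    omega
  obtain ⟨z, hz⟩ : ∃ z, z ∈ (opp (sd 2) v0).filter fun j => col v0 j = b := by
    apply Finset.card_pos.1
    have e1 := (h2' v0).2.2
    have e2 : 0 < (opp (sd 2) v0).card := Finset.card_pos.2 ⟨v2, by rw [hopp, hv0, hv2]; decide⟩
    unfold dg at e1
    omega
  rw [mem_filter, hopp, hv0] at hy hz
  have hy1 : part y = 1 := by
    by_contra h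
    exact hy.1 ⟨fun h' => absurd h' h, fun h' => absurd h' (by decide)⟩
  have hz2 : part z = 2 := by
    by_contra h
    exact hz.1 ⟨fun h' => absurd h' h, fun h' => absurd h' (by decide)⟩
  have hyz : col y z = a ∨ col y z = b := (h1 y).1 z (by rw [hopp, hy1, hz2]; decide)
  have hmG : ∀ g : G, m • g = 0 := fun g => by rw [← hG]; exact card_nsmul_eq_zero'
  -- the tree
  have build : ∀ (g : G) (y z : V), part y ≠ 0 → part z ≠ 0 → part y ≠ part z →
      col v0 y = g → col v0 z ≠ g → col y z = g →
      2 * dg (sd 0) col g v0 = (opp (sd 0) v0).card →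
      2 * dg (sd 0) col g z = (opp (sd 0) z).card → False := by
    intro g y z hy0 hz0 hpyz hcy hcz hcyz hd1 hd2
    set J := (opp (sd 0) v0).filter fun j => col v0 j = g with hJ
    have hJc : 2 * J.card = (opp (sd 0) v0).card := hd1
    have hv0opp : v0 ∈ opp (sd 0) z := by
      rw [hopp, hv0]
      intro h
      exact hz0 (h.1 rfl)
    have hsum := card_opp (sd 0) z v0 hv0opp
    rw [hV] at hsum
    set A := (opp (sd 0) z).filter fun j => col z j = g with hA
    have hAc : 2 * A.card = (opp (sd 0) z).card := hd2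
    have hzpos : 0 < (opp (sd 0) z).card := Finset.card_pos.2 ⟨v0, hv0opp⟩
    obtain ⟨A', hA'A, hA'c⟩ := Finset.exists_subset_card_eq (show A.card - 1 ≤ A.card by omega)
    have hmemA : ∀ j ∈ A, part j = 0 := by
      intro j hj
      rw [hA, mem_filter, hopp] at hj
      by_contra h
      exact hj.1 ⟨fun h' => absurd h' h, fun h' => absurd h' hz0⟩
    have hmemJ : ∀ j ∈ J, part j ≠ 0 := by
      intro j hj
      rw [hJ, mem_filter, hopp, hv0] at hj
      intro h
      exact hj.1 ⟨fun _ => rfl, fun _ => h⟩
    have hv0J : v0 ∉ J := fun h => hmemJ v0 h hv0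
    have hyJ : y ∈ J := by
      rw [hJ, mem_filter, hopp, hv0]
      exact ⟨fun h => hy0 (h.2 rfl), hcy⟩
    have hzJ : z ∉ J := by
      intro h
      rw [hJ, mem_filter] at h
      exact hcz h.2
    have hzv0 : z ≠ v0 := fun h => hz0 (by rw [h, hv0])
    have t1 : GT (fun u v => part u ≠ part v) col {v0} 0 0 := GT.single v0
    have t2 := t1.add_star (u := v0) (by simp) J (by
      rw [Finset.disjoint_singleton_right]; exact hv0J) (fun j hj => by
        rw [hv0]; exact Ne.symm (hmemJ j hj))
    have t3 := GT.leaf t2 (u := y) (v := z) (Finset.mem_union_right _ hyJ) (by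
      rw [Finset.mem_union, Finset.mem_singleton]
      rintro (h | h)
      · exact hzv0 h
      · exact hzJ h) hpyz
    have t4 := t3.add_star (u := z) (by simp) A' (by
      rw [Finset.disjoint_left]
      intro j hj hj'
      have hj0 := hmemA j (hA'A hj)
      rw [Finset.mem_insert, Finset.mem_union, Finset.mem_singleton] at hj'
      rcases hj' with rfl | rfl | h
      · exact hz0 hj0
      · have := (mem_filter.1 (hA'A hj)).2
        rw [hcol] at this
        exact hcz this
      · exact hmemJ j h hj0) (fun j hj => by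
        rw [hmemA j (hA'A hj)]; exact hz0)
    refine hcon _ (t4.cast ?_ ?_)
    · rw [hA'c]; omega
    · have e1 : ∑ j ∈ J, col v0 j = J.card • g := by
        rw [← Finset.sum_const]
        exact Finset.sum_congr rfl fun j hj => (mem_filter.1 hj).2
      have e2 : ∑ j ∈ A', col z j = A'.card • g := by
        rw [← Finset.sum_const]
        exact Finset.sum_congr rfl fun j hj => (mem_filter.1 (hA'A hj)).2
      rw [e1, e2, hcyz]
      have e3 : (0 : G) + J.card • g + g + A'.card • g = (J.card + 1 + A'.card) • g := by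
        rw [add_smul, add_smul, one_smul, zero_add]
      rw [e3]
      have e4 : J.card + 1 + A'.card = m := by rw [hA'c]; omega
      rw [e4]
      exact hmG g
  rcases hyz with h | h
  · exact build a y z (by rw [hy1]; decide) (by rw [hz2]; decide) (by rw [hy1, hz2]; decide) hy.2
      (by rw [hz.2]; exact hab.symm) h (h0' v0).2.1 (h0' z).2.1
  · exact build b z y (by rw [hz2]; decide) (by rw [hy1]; decide) (by rw [hy1, hz2]; decide) hz.2
      (by rw [hy.2]; exact hab) (by rw [hcol]; exact h) (h0' v0).2.2 (h0' y).2.2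

end tri

end Pool.Agent.Q293.ZT
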