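import Mathlib
import Pool.Agent.S10353

/-!
# Colourings of complete bipartite graphs on `2 m` vertices without zero-sum trees

By the starting lemma `Pool.Agent.S10353.hub_colour`, in a colouring of a complete bipartite graph
on `2 m` vertices by a group of order `m` without zero-sum trees with `m` edges, every edge `u v`
has a colour `a` different from its own such that at least `m` edges at `u` or `v` have colour `a`.
Double counting shows that only two colours occur and that both occur equally often at every vertex.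
-/

set_option autoImplicit false

open Finset

namespace Pool.Agent.Q293.ZT

variable {G : Type} [AddCommGroup G] [Fintype G] [DecidableEq G]

/-- one row -/
lemma row {ι : Type} (Y : Finset ι) (r w : ι → G) (hw : ∀ v ∈ Y, r v ≠ w v) :
    2 * ∑ v ∈ Y, (Y.filter (fun j => r j = w v)).card ≤ Y.card ^ 2 ∧
    (2 * ∑ v ∈ Y, (Y.filter (fun j => r j = w v)).card = Y.card ^ 2 →
      ∀ v ∈ Y, 2 * (Y.filter (fun j => r j = w v)).card = Y.card) := by
  classical
  obtain ⟨g, -, hg⟩ := Finset.exists_max_image (univ : Finset G)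
    (fun g => (Y.filter (fun j => r j = g)).card) ⟨0, mem_univ _⟩
  set M := (Y.filter (fun j => r j = g)).card with hM
  set M' := (Y.filter (fun j => ¬ r j = g)).card with hM'
  have hMM : M + M' = Y.card := Finset.card_filter_add_card_filter_not _
  have h1 : ∀ v ∈ Y, r v = g → (Y.filter (fun j => r j = w v)).card ≤ M' := by
    intro v hv hvg
    apply Finset.card_le_card
    intro j hj
    rw [mem_filter] at hj ⊢
    refine ⟨hj.1, fun h => hw v hv ?_⟩
    rw [hvg, ← h, hj.2]
  have h2 : ∀ v ∈ Y, (Y.filter (fun j => r j = w v)).card ≤ M := fun v _ => hg _ (mem_univ _)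
  have hsum : ∑ v ∈ Y, (Y.filter (fun j => r j = w v)).card ≤ M * M' + M' * M := by
    rw [← Finset.sum_filter_add_sum_filter_not Y (fun v => r v = g)]
    refine Nat.add_le_add ?_ ?_
    · refine (Finset.sum_le_card_nsmul _ _ M' fun v hv => ?_).trans (by rw [smul_eq_mul])
      rw [mem_filter] at hv
      exact h1 v hv.1 hv.2
    · refine (Finset.sum_le_card_nsmul _ _ M fun v hv => ?_).trans (by rw [smul_eq_mul])
      rw [mem_filter] at hv
      exact h2 v hv.1
  have h4 : 2 * (M * M' + M' * M) ≤ (M + M') ^ 2 := by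
    zify
    nlinarith [sq_nonneg ((M : ℤ) - M')]
  rw [← hMM]
  refine ⟨by omega, fun heq => ?_⟩
  have h5 : M = M' := by
    have h6 : 2 * (M * M' + M' * M) = (M + M') ^ 2 := by omega
    have h7 : ((M : ℤ) - M') ^ 2 = 0 := by
      have : (2 * ((M : ℤ) * M' + M' * M)) = (M + M') ^ 2 := by exact_mod_cast h6
      nlinarith
    have h8 := pow_eq_zero_iff (two_ne_zero) |>.1 h7
    omega
  have h9 : ∑ v ∈ Y, (2 * (Y.filter (fun j => r j = w v)).card) = ∑ _v ∈ Y, (M + M') := by
    rw [← Finset.mul_sum, heq, Finset.sum_const, smul_eq_mul, ← hMM]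
    ring
  have h10 := (Finset.sum_eq_sum_iff_of_le (fun v hv => by
    have := h2 v hv
    omega)).1 h9
  exact h10

omit [AddCommGroup G] [Fintype G] in
/-- a row with two colours -/
lemma row_two {ι : Type} (Y : Finset ι) (r w : ι → G) (hw : ∀ v ∈ Y, r v ≠ w v)
    (h : ∀ v ∈ Y, 2 * (Y.filter (fun j => r j = w v)).card = Y.card) :
    ∀ v ∈ Y, (∀ j ∈ Y, r j = r v ∨ r j = w v) ∧ 2 * (Y.filter (fun j => r j = r v)).card = Y.card := by
  classical
  intro v hv
  have hpos : 0 < Y.card := Finset.card_pos.2 ⟨v, hv⟩
  have h1 := h v hv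
  obtain ⟨v', hv'⟩ := Finset.card_pos.1 (show 0 < (Y.filter (fun j => r j = w v)).card by omega)
  rw [mem_filter] at hv'
  have h2 := h v' hv'.1
  have h3 : w v' ≠ w v := fun h => hw v' hv'.1 (by rw [h, hv'.2])
  have hdisj : Disjoint (Y.filter (fun j => r j = w v)) (Y.filter (fun j => r j = w v')) := by
    rw [Finset.disjoint_left]
    intro j hj hj'
    rw [mem_filter] at hj hj'
    exact h3 (hj'.2.symm.trans hj.2)
  have h4 : Y.filter (fun j => r j = w v) ∪ Y.filter (fun j => r j = w v') = Y := by
    apply Finset.eq_of_subset_of_card_le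
    · exact Finset.union_subset (Finset.filter_subset _ _) (Finset.filter_subset _ _)
    · rw [Finset.card_union_of_disjoint hdisj]; omega
  have h5 : ∀ j ∈ Y, r j = w v ∨ r j = w v' := by
    intro j hj
    rw [← h4, mem_union, mem_filter, mem_filter] at hj
    rcases hj with hj | hj
    · exact Or.inl hj.2
    · exact Or.inr hj.2
  have h6 : r v = w v' := (h5 v hv).resolve_left (hw v hv)
  rw [h6]
  exact ⟨fun j hj => (h5 j hj).symm, h2⟩

variable {V : Type} [Fintype V] [DecidableEq V]

/-- the vertices on the other side -/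
def opp (side : V → Bool) (u : V) : Finset V := univ.filter fun j => side j ≠ side u

/-- the number of edges of colour `a` at `u` -/
def dg (side : V → Bool) (col : V → V → G) (a : G) (u : V) : ℕ :=
  ((opp side u).filter fun j => col u j = a).card

omit [DecidableEq V] in
lemma mem_opp {side : V → Bool} {u v : V} : v ∈ opp side u ↔ side v ≠ side u := by simp [opp]

omit [DecidableEq V] in
lemma card_opp (side : V → Bool) (u v : V) (h : v ∈ opp side u) :
    (opp side u).card + (opp side v).card = Fintype.card V := by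
  rw [mem_opp] at h
  have h1 : opp side v = univ.filter fun j => ¬ side j ≠ side u := by
    ext j
    rw [mem_opp, mem_filter]
    simp only [mem_univ, true_and, not_not]
    constructor
    · intro h'
      exact Pool.Agent.S10353.other_side _ _ _ h h'
    · intro h' h''
      exact h (h''.symm.trans h')
  rw [h1, opp, Finset.card_filter_add_card_filter_not, card_univ]

theorem two_colours (side : V → Bool) (col : V → V → G) (m : ℕ) (hV : Fintype.card V = 2 * m)
    (hcol : ∀ x y, col x y = col y x)
    (h : ∀ u v, v ∈ opp side u → ∃ a, col u v ≠ a ∧ m ≤ dg side col a u + dg side col a v)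
    (hne : ∃ u v, v ∈ opp side u) :
    ∃ a b : G, a ≠ b ∧ ∀ u, (∀ v ∈ opp side u, col u v = a ∨ col u v = b) ∧
      2 * dg side col a u = (opp side u).card ∧ 2 * dg side col b u = (opp side u).card := by
  classical
  have hsymm : ∀ {u v : V}, v ∈ opp side u → u ∈ opp side v := by
    intro u v h
    rw [mem_opp] at h ⊢
    exact Ne.symm h
  choose! w hw using h
  -- the two sums
  have hA : ∀ u, 2 * ∑ v ∈ opp side u, dg side col (w u v) u ≤ (opp side u).card ^ 2 := fun u =>
    (row (opp side u) (fun j => col u j) (fun v => w u v) (fun v hv => (hw u v hv).1)).1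
  have hB : ∀ v, 2 * ∑ u ∈ opp side v, dg side col (w u v) v ≤ (opp side v).card ^ 2 := fun v =>
    (row (opp side v) (fun j => col v j) (fun u => w u v) (fun u hu => by
      change col v u ≠ w u v
      rw [hcol v u]
      exact (hw u v (hsymm hu)).1)).1
  have hswap : ∀ f : V → V → ℕ, ∑ u, ∑ v ∈ opp side u, f u v = ∑ v, ∑ u ∈ opp side v, f u v := by
    intro f
    apply Finset.sum_comm'
    intro x y
    simp only [mem_univ, true_and, and_true]
    exact ⟨hsymm, hsymm⟩
  have hsq : ∀ u, (opp side u).card ^ 2 = ∑ _v ∈ opp side u, (opp side u).card := by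
    intro u; rw [Finset.sum_const, smul_eq_mul]; ring
  have hlow : ∑ u, (opp side u).card ^ 2 + ∑ v, (opp side v).card ^ 2 ≤
      ∑ u, (2 * ∑ v ∈ opp side u, dg side col (w u v) u) +
        ∑ v, (2 * ∑ u ∈ opp side v, dg side col (w u v) v) := by
    have e1 : ∑ u, (opp side u).card ^ 2 + ∑ v, (opp side v).card ^ 2 =
        ∑ u, ∑ v ∈ opp side u, 2 * m := by
      have e2 : ∑ v, (opp side v).card ^ 2 = ∑ u, ∑ v ∈ opp side u, (opp side v).card := by
        rw [hswap]
        exact Finset.sum_congr rfl fun v _ => hsq v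
      have e2' : ∑ u, (opp side u).card ^ 2 = ∑ u, ∑ v ∈ opp side u, (opp side u).card :=
        Finset.sum_congr rfl fun u _ => hsq u
      conv_lhs =>
        congr
        · rw [e2']
        · rw [e2]
      rw [← Finset.sum_add_distrib]
      refine Finset.sum_congr rfl fun u _ => ?_
      rw [← Finset.sum_add_distrib]
      refine Finset.sum_congr rfl fun v hv => ?_
      rw [card_opp side u v hv, hV]
    have e3 : ∑ u, (2 * ∑ v ∈ opp side u, dg side col (w u v) u) +
        ∑ v, (2 * ∑ u ∈ opp side v, dg side col (w u v) v) =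
        ∑ u, ∑ v ∈ opp side u, 2 * (dg side col (w u v) u + dg side col (w u v) v) := by
      have e4 : ∑ v, (2 * ∑ u ∈ opp side v, dg side col (w u v) v) =
          ∑ u, ∑ v ∈ opp side u, 2 * dg side col (w u v) v := by
        rw [hswap]
        exact Finset.sum_congr rfl fun v _ => Finset.mul_sum _ _ _
      rw [e4, ← Finset.sum_add_distrib]
      refine Finset.sum_congr rfl fun u _ => ?_
      rw [Finset.mul_sum, ← Finset.sum_add_distrib]
      refine Finset.sum_congr rfl fun v _ => by ring
    rw [e1, e3]
    refine Finset.sum_le_sum fun u _ => Finset.sum_le_sum fun v hv => ?_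
    have := (hw u v hv).2
    omega
  have hA1 := Finset.sum_le_sum (s := univ) fun u _ => hA u
  have hB1 := Finset.sum_le_sum (s := univ) fun v _ => hB v
  have hA2 : ∑ u, (2 * ∑ v ∈ opp side u, dg side col (w u v) u) = ∑ u, (opp side u).card ^ 2 := by
    omega
  have hB2 : ∑ v, (2 * ∑ u ∈ opp side v, dg side col (w u v) v) = ∑ v, (opp side v).card ^ 2 := by
    omega
  have hA3 := (Finset.sum_eq_sum_iff_of_le (fun u _ => hA u)).1 hA2
  have hB3 := (Finset.sum_eq_sum_iff_of_le (fun v _ => hB v)).1 hB2
  have hwA : ∀ u, ∀ v ∈ opp side u, col u v ≠ w u v := fun u v hv => (hw u v hv).1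
  have hwB : ∀ v, ∀ u ∈ opp side v, col v u ≠ w u v := fun v u hu => by
    rw [hcol v u]; exact (hw u v (hsymm hu)).1
  have hA4 : ∀ u, ∀ v ∈ opp side u, 2 * dg side col (w u v) u = (opp side u).card := fun u =>
    (row (opp side u) (fun j => col u j) (fun v => w u v) (hwA u)).2 (hA3 u (mem_univ _))
  have hB4 : ∀ v, ∀ u ∈ opp side v, 2 * dg side col (w u v) v = (opp side v).card := fun v =>
    (row (opp side v) (fun j => col v j) (fun u => w u v) (hwB v)).2 (hB3 v (mem_univ _))
  have hA5 := fun u => row_two (opp side u) (fun j => col u j) (fun v => w u v) (hwA u) (hA4 u)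
  have hB5 := fun v => row_two (opp side v) (fun j => col v j) (fun u => w u v) (hwB v) (hB4 v)
  obtain ⟨u0, v0, h0⟩ := hne
  refine ⟨col u0 v0, w u0 v0, hwA u0 v0 h0, ?_⟩
  set a := col u0 v0 with ha
  set b := w u0 v0 with hb
  have hab : a ≠ b := hwA u0 v0 h0
  -- propagation
  have prop : ∀ (u v : V) (z : G), v ∈ opp side u →
      ((∀ j ∈ opp side u, col u j = a ∨ col u j = b) ∧ 2 * dg side col a u = (opp side u).card ∧
        2 * dg side col b u = (opp side u).card) →
      (∀ j ∈ opp side u, col u j = col u v ∨ col u j = z) →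
      (∀ j ∈ opp side v, col v j = col v u ∨ col v j = z) →
      2 * dg side col (col v u) v = (opp side v).card → 2 * dg side col z v = (opp side v).card →
      ((∀ j ∈ opp side v, col v j = a ∨ col v j = b) ∧ 2 * dg side col a v = (opp side v).card ∧
        2 * dg side col b v = (opp side v).card) := by
    intro u v z huv hT hu hv h1 h2
    have hpos : 0 < (opp side u).card := Finset.card_pos.2 ⟨v, huv⟩
    have ha' : a = col u v ∨ a = z := by
      obtain ⟨j, hj⟩ := Finset.card_pos.1 (show 0 < dg side col a u by have := hT.2.1; omega)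
      rw [mem_filter] at hj
      have := hu j hj.1
      rwa [hj.2] at this
    have hb' : b = col u v ∨ b = z := by
      obtain ⟨j, hj⟩ := Finset.card_pos.1 (show 0 < dg side col b u by have := hT.2.2; omega)
      rw [mem_filter] at hj
      have := hu j hj.1
      rwa [hj.2] at this
    rcases hT.1 v huv with hc | hc
    · have hz : b = z := hb'.resolve_left (fun h => hab (hc.symm.trans h.symm))
      rw [hcol v u, hc] at h1
      rw [← hz] at h2
      refine ⟨fun j hj => ?_, h1, h2⟩
      have := hv j hj
      rwa [hcol v u, hc, ← hz] at this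
    · have hz : a = z := ha'.resolve_left (fun h => hab (h.trans hc))
      rw [hcol v u, hc] at h1
      rw [← hz] at h2
      refine ⟨fun j hj => ?_, h2, h1⟩
      have := hv j hj
      rw [hcol v u, hc, ← hz] at this
      exact this.symm
  have hT0 : (∀ j ∈ opp side u0, col u0 j = a ∨ col u0 j = b) ∧
      2 * dg side col a u0 = (opp side u0).card ∧ 2 * dg side col b u0 = (opp side u0).card :=
    ⟨(hA5 u0 v0 h0).1, (hA5 u0 v0 h0).2, hA4 u0 v0 h0⟩
  have hT1 : ∀ v ∈ opp side u0, (∀ j ∈ opp side v, col v j = a ∨ col v j = b) ∧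
      2 * dg side col a v = (opp side v).card ∧ 2 * dg side col b v = (opp side v).card :=
    fun v hv => prop u0 v (w u0 v) hv hT0 (hA5 u0 v hv).1 (hB5 v u0 (hsymm hv)).1
      (hB5 v u0 (hsymm hv)).2 (hB4 v u0 (hsymm hv))
  intro u
  by_cases hu : u ∈ opp side u0
  · exact hT1 u hu
  · have hu' : u ∈ opp side v0 := by
      rw [mem_opp] at hu h0 ⊢
      rw [not_not] at hu
      rw [hu]
      exact Ne.symm h0
    exact prop v0 u (w u v0) hu' (hT1 v0 h0) (hB5 v0 u hu').1 (hA5 u v0 (hsymm hu')).1
      (hA5 u v0 (hsymm hu')).2 (hA4 u v0 (hsymm hu'))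

/-- the structure of colourings without zero-sum trees -/
theorem no_tree (side : V → Bool) (col : V → V → G) (m : ℕ) (hV : Fintype.card V = 2 * m)
    (hG : Nat.card G = m) (hcol : ∀ x y, col x y = col y x)
    (hno : ∀ W, ¬ Pool.Agent.S10353.Tr side col W m 0) (hne : ∃ u v, v ∈ opp side u) :
    ∃ a b : G, a ≠ b ∧ ∀ u, (∀ v ∈ opp side u, col u v = a ∨ col u v = b) ∧
      2 * dg side col a u = (opp side u).card ∧ 2 * dg side col b u = (opp side u).card := by
  classical
  refine two_colours side col m hV hcol (fun u v huv => ?_) hne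
  have huv' : side u ≠ side v := Ne.symm (mem_opp.1 huv)
  obtain ⟨a, h1, h2⟩ := Pool.Agent.S10353.hub_colour m hV hG hcol hno u v huv'
  refine ⟨a, h1, h2.trans ?_⟩
  refine le_trans (Finset.card_le_card (t := ((opp side u).filter fun j => col u j = a) ∪
    ((opp side v).filter fun j => col v j = a)) ?_) (Finset.card_union_le _ _)
  intro j hj
  rw [mem_filter] at hj
  obtain ⟨-, -, -, h3⟩ := hj
  rw [mem_union, mem_filter, mem_filter, mem_opp, mem_opp]
  unfold Pool.Agent.S10353.fh at h3
  by_cases hs : side j = side v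
  · rw [if_pos hs] at h3
    exact Or.inl ⟨by rw [hs]; exact Ne.symm huv', h3⟩
  · rw [if_neg hs] at h3
    exact Or.inr ⟨hs, h3⟩

end Pool.Agent.Q293.ZT
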